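import Pool.Agent.SWCG.Random

set_option autoImplicit false

open Filter Topology MeasureTheory
open scoped Pointwise

namespace Pool.Agent.SWCG

theorem exists_small {δ : ℝ} (hδ : 0 < δ) : ∃ k : ℕ, 0 < k ∧ ∃ r : ℕ,
    (r : ℝ) ^ 2 + (k : ℝ) * ((k : ℝ) ^ r * (2 * (1 / 2) ^ (r.choose 2))) ≤ δ * k := by
  set M : ℕ := ⌈2 / δ⌉₊ + 1 with hM
  have hM1 : 2 / δ ≤ (M : ℝ) := by
    rw [hM]; push_cast
    exact (Nat.le_ceil _).trans (by linarith)
  have hMpos : (0 : ℝ) < M := by rw [hM]; positivity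
  have hlim : Tendsto (fun q : ℕ => (M : ℝ) * (2 * q + 1) ^ 2 * (1 / 2) ^ q) atTop (𝓝 0) := by
    have a2 := tendsto_pow_const_mul_const_pow_of_abs_lt_one 2
      (r := (1 / 2 : ℝ)) (by rw [abs_of_pos] <;> norm_num)
    have a1 := tendsto_pow_const_mul_const_pow_of_abs_lt_one 1
      (r := (1 / 2 : ℝ)) (by rw [abs_of_pos] <;> norm_num)
    have a0 := tendsto_pow_const_mul_const_pow_of_abs_lt_one 0
      (r := (1 / 2 : ℝ)) (by rw [abs_of_pos] <;> norm_num)
    have := ((a2.const_mul (4 * (M : ℝ))).add (a1.const_mul (4 * (M : ℝ)))).add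
      (a0.const_mul (M : ℝ))
    simp only [mul_zero, add_zero] at this
    refine this.congr fun q => ?_
    ring
  have hev : ∀ᶠ q : ℕ in atTop, (M : ℝ) * (2 * q + 1) ^ 2 * (1 / 2) ^ q < min (δ / 4) 1 :=
    hlim.eventually (gt_mem_nhds (by positivity))
  obtain ⟨q, hq⟩ := hev.exists
  have hq1 : (M : ℝ) * (2 * q + 1) ^ 2 * (1 / 2) ^ q ≤ δ / 4 := hq.le.trans (min_le_left _ _)
  have hq2 : (M : ℝ) * (2 * q + 1) ^ 2 * (1 / 2) ^ q ≤ 1 := hq.le.trans (min_le_right _ _)
  refine ⟨M * (2 * q + 1) ^ 2, by positivity, 2 * q + 1, ?_⟩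
  have hch : (2 * q + 1).choose 2 = q * (2 * q + 1) := by
    rw [Nat.choose_two_right]
    have : (2 * q + 1) * (2 * q + 1 - 1) = 2 * (q * (2 * q + 1)) := by
      rw [Nat.add_sub_cancel]; ring
    rw [this, Nat.mul_div_cancel_left _ (by norm_num)]
  set k : ℝ := ((M * (2 * q + 1) ^ 2 : ℕ) : ℝ) with hk
  have hkr : k = (M : ℝ) * (2 * q + 1) ^ 2 := by rw [hk]; push_cast; ring
  have e1 : k ^ (2 * q + 1) * (2 * (1 / 2) ^ ((2 * q + 1).choose 2)) =
      2 * (k * (1 / 2) ^ q) ^ (2 * q + 1) := by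
    rw [hch, mul_pow, ← pow_mul]
    ring
  have hnn : 0 ≤ k * (1 / 2) ^ q := by rw [hkr]; positivity
  have hq1' : k * (1 / 2) ^ q ≤ δ / 4 := by rw [hkr]; exact hq1
  have hq2' : k * (1 / 2) ^ q ≤ 1 := by rw [hkr]; exact hq2
  have e2 : (k * (1 / 2) ^ q) ^ (2 * q + 1) ≤ δ / 4 :=
    (pow_le_of_le_one hnn hq2' (Nat.succ_ne_zero _)).trans hq1'
  rw [e1]
  have hkpos : 0 < k := by rw [hkr]; positivity
  have e3 : ((2 * q + 1 : ℕ) : ℝ) ^ 2 ≤ δ / 2 * k := by
    rw [hkr]
    push_cast
    have h1 : 1 ≤ δ / 2 * M := by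
      rw [div_le_iff₀ hδ] at hM1
      linarith
    have h2 : (0 : ℝ) ≤ (2 * (q : ℝ) + 1) ^ 2 := by positivity
    nlinarith
  nlinarith

/-- The basis vector at a random node. -/
noncomputable def fn (n k : ℕ) (w : Om) : X := j (Finsupp.single (tn n k w) 1)

theorem norm_single_le (t : T) : ‖j (Finsupp.single t 1)‖ ≤ 1 := by
  refine (norm_j_le _ {t} Finsupp.support_single_subset).trans ?_
  simp

theorem measurable_tn (n k : ℕ) : Measurable[_, ⊤] (tn n k) := by
  refine @measurable_to_countable' T Om ⊤ _ _ _ (fun x => ?_)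
  have h1 : tn n k ⁻¹' {x} = ⋂ l, {w | l ∈ tn n k w ↔ l ∈ x} := by
    ext w
    simp only [Set.mem_preimage, Set.mem_singleton_iff, Set.mem_iInter, Set.mem_ofPred_eq]
    exact Finset.ext_iff
  rw [h1]
  refine MeasurableSet.iInter fun l => ?_
  have h2 : MeasurableSet {w | l ∈ tn n k w} := by
    by_cases hl : l = Nat.pair n k
    · have : {w | l ∈ tn n k w} = Set.univ := by
        ext w
        simp only [Set.mem_ofPred_eq, Set.mem_univ, iff_true]
        unfold tn
        rw [hl]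
        exact Finset.mem_insert_self _ _
      rw [this]
      exact MeasurableSet.univ
    · by_cases hl2 : l < Nat.pair n k
      · by_cases hl3 : (Nat.unpair l).1 = n
        · have : {w | l ∈ tn n k w} = Set.univ := by
            ext w
            simp only [Set.mem_ofPred_eq, Set.mem_univ, iff_true]
            rw [mem_tn _ _ _ _ hl2]
            exact Or.inl hl3
          rw [this]
          exact MeasurableSet.univ
        · have : {w | l ∈ tn n k w} = (fun w : Om => w s(n, (Nat.unpair l).1)) ⁻¹' {true} := by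
            ext w
            simp only [Set.mem_ofPred_eq, Set.mem_preimage, Set.mem_singleton_iff]
            rw [mem_tn _ _ _ _ hl2]
            exact ⟨fun h => h.resolve_left hl3, Or.inr⟩
          rw [this]
          exact (measurable_pi_apply _) (measurableSet_singleton true)
      · have : {w | l ∈ tn n k w} = ∅ := by
          ext w
          simp only [Set.mem_ofPred_eq, Set.mem_empty_iff_false, iff_false]
          unfold tn
          rw [Finset.mem_insert, Finset.mem_filter, Finset.mem_range]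
          rintro (h | h)
          · exact hl h
          · exact hl2 h.1
        rw [this]
        exact MeasurableSet.empty
  by_cases hx : l ∈ x
  · have : {w | l ∈ tn n k w ↔ l ∈ x} = {w | l ∈ tn n k w} := by
      ext w
      simp [hx]
    rw [this]
    exact h2
  · have : {w | l ∈ tn n k w ↔ l ∈ x} = {w | l ∈ tn n k w}ᶜ := by
      ext w
      simp [hx]
    rw [this]
    exact h2.compl

theorem stronglyMeasurable_comp_tn {E : Type} [TopologicalSpace E] (g : T → E) (n k : ℕ) :
    StronglyMeasurable (fun w => g (tn n k w)) := by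
  let _ : MeasurableSpace T := ⊤
  have : MeasurableSingletonClass T := ⟨fun _ => trivial⟩
  exact (StronglyMeasurable.of_discrete (f := g)).comp_measurable (measurable_tn n k)

theorem memLp_fn (n k : ℕ) : MemLp (fn n k) 1 mu :=
  MemLp.of_bound (stronglyMeasurable_comp_tn (fun t => j (Finsupp.single t 1)) n
    k).aestronglyMeasurable 1 (ae_of_all _ fun _ => norm_single_le _)

/-- The vectors of the double sequence. -/
noncomputable def fL (n k : ℕ) : Lp X 1 mu := (memLp_fn n k).toLp (fn n k)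

theorem coeFn_fL (n k : ℕ) : fL n k =ᵐ[mu] fn n k := MemLp.coeFn_toLp _

theorem norm_sum_fL_le (σ : ℕ → ℕ) (A : Finset ℕ) (r : ℕ) :
    ‖∑ n ∈ A, fL n (σ n)‖ ≤
      (r : ℝ) ^ 2 + (A.card : ℝ) * ((A.card : ℝ) ^ r * (2 * (1 / 2) ^ (r.choose 2))) := by
  classical
  rw [L1.norm_eq_integral_norm]
  have h1 : (⇑(∑ n ∈ A, fL n (σ n)) : Om → X) =ᵐ[mu] fun w => ∑ n ∈ A, fn n (σ n) w := by
    have h2 := Lp.coeFn_finsetSum A (fun n => fL n (σ n))
    have h3 : ∀ᵐ w ∂mu, ∀ n ∈ A, fL n (σ n) w = fn n (σ n) w :=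
      (Finset.eventually_all A).2 fun n _ => coeFn_fL n (σ n)
    filter_upwards [h2, h3] with w hw2 hw3
    rw [hw2]
    simp only [Finset.sum_apply]
    exact Finset.sum_congr rfl fun n hn => hw3 n hn
  have h4 : ∫ w, ‖(∑ n ∈ A, fL n (σ n) : Lp X 1 mu) w‖ ∂mu =
      ∫ w, ‖∑ n ∈ A, fn n (σ n) w‖ ∂mu := by
    refine integral_congr_ae ?_
    filter_upwards [h1] with w hw
    rw [hw]
  rw [h4]
  have hmeas : StronglyMeasurable fun w => ∑ n ∈ A, fn n (σ n) w :=
    Finset.stronglyMeasurable_fun_sum _ fun n _ =>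
      stronglyMeasurable_comp_tn (fun t => j (Finsupp.single t 1)) n (σ n)
  have hcard : ∀ w, ‖∑ n ∈ A, fn n (σ n) w‖ ≤ A.card := by
    intro w
    refine (norm_sum_le _ _).trans ?_
    calc ∑ n ∈ A, ‖fn n (σ n) w‖ ≤ ∑ n ∈ A, (1 : ℝ) :=
          Finset.sum_le_sum fun n _ => norm_single_le _
      _ = A.card := by simp
  have hpt : ∀ w, ‖∑ n ∈ A, fn n (σ n) w‖ ≤
      (r : ℝ) ^ 2 + (Bad A r).indicator (fun _ => (A.card : ℝ)) w := by
    intro w
    by_cases hw : w ∈ Bad A r
    · rw [Set.indicator_of_mem hw]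
      have := hcard w
      have h0 : (0 : ℝ) ≤ (r : ℝ) ^ 2 := by positivity
      linarith
    · rw [Set.indicator_of_notMem hw, add_zero]
      exact norm_sum_tn_le σ A r w hw
  have hint : Integrable (fun w => (r : ℝ) ^ 2 + (Bad A r).indicator
      (fun _ => (A.card : ℝ)) w) mu :=
    (integrable_const _).add ((integrable_const _).indicator (measurableSet_Bad A r))
  calc ∫ w, ‖∑ n ∈ A, fn n (σ n) w‖ ∂mu
      ≤ ∫ w, ((r : ℝ) ^ 2 + (Bad A r).indicator (fun _ => (A.card : ℝ)) w) ∂mu := by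
        refine integral_mono_of_nonneg (ae_of_all _ fun w => norm_nonneg _) hint
          (ae_of_all _ hpt)
    _ = (r : ℝ) ^ 2 + mu.real (Bad A r) * A.card := by
        rw [integral_add (integrable_const _)
          ((integrable_const _).indicator (measurableSet_Bad A r)),
          integral_indicator_const _ (measurableSet_Bad A r)]
        simp
    _ ≤ _ := by
        have h5 := mu_Bad_le A r
        have h6 : (0 : ℝ) ≤ A.card := Nat.cast_nonneg _
        nlinarith

/-- For every choice function the sequence is weakly null. -/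
theorem weakly_null (σ : ℕ → ℕ) (g : Lp X 1 mu →L[ℝ] ℝ) :
    Tendsto (fun n => g (fL n (σ n))) atTop (𝓝 0) := by
  have hone : ∀ (g : Lp X 1 mu →L[ℝ] ℝ) (δ : ℝ), 0 < δ →
      ∀ᶠ n in atTop, g (fL n (σ n)) < δ := by
    intro g δ hδ
    by_contra hcon
    rw [Filter.not_eventually] at hcon
    have hinf : {n | δ ≤ g (fL n (σ n))}.Infinite := by
      have := Nat.frequently_atTop_iff_infinite.1 hcon
      simpa only [not_lt] using this
    obtain ⟨k, hk, r, hkr⟩ := exists_small (δ := δ / (2 * (‖g‖ + 1))) (by positivity)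
    obtain ⟨A, hA, hAk⟩ := hinf.exists_subset_card_eq k
    have h1 := norm_sum_fL_le σ A r
    rw [hAk] at h1
    have h2 : (k : ℝ) * δ ≤ g (∑ n ∈ A, fL n (σ n)) := by
      rw [map_sum, ← hAk, ← nsmul_eq_mul, ← Finset.sum_const]
      exact Finset.sum_le_sum fun n hn => hA (by exact_mod_cast hn)
    have h3 : g (∑ n ∈ A, fL n (σ n)) ≤ ‖g‖ * ‖∑ n ∈ A, fL n (σ n)‖ :=
      (le_abs_self _).trans (g.le_opNorm _)
    have h4 : ‖∑ n ∈ A, fL n (σ n)‖ ≤ δ / (2 * (‖g‖ + 1)) * k := h1.trans hkr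
    have h5 : ‖g‖ * ‖∑ n ∈ A, fL n (σ n)‖ ≤ ‖g‖ * (δ / (2 * (‖g‖ + 1)) * k) :=
      mul_le_mul_of_nonneg_left h4 (norm_nonneg _)
    have h6 : ‖g‖ * (δ / (2 * (‖g‖ + 1)) * k) ≤ k * (δ / 2) := by
      have hg := norm_nonneg g
      have hk' : (0 : ℝ) < k := by exact_mod_cast hk
      have : ‖g‖ * (δ / (2 * (‖g‖ + 1)) * k) = (‖g‖ / (‖g‖ + 1)) * (k * (δ / 2)) := by
        field_simp
      rw [this]
      refine mul_le_of_le_one_left (by positivity) ?_
      rw [div_le_one (by positivity)]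
      linarith
    have hk' : (0 : ℝ) < k := by exact_mod_cast hk
    nlinarith
  rw [Metric.tendsto_atTop']
  intro ε hε
  obtain ⟨N1, hN1⟩ := (Filter.eventually_atTop).1 (hone g ε hε)
  obtain ⟨N2, hN2⟩ := (Filter.eventually_atTop).1 (hone (-g) ε hε)
  refine ⟨max N1 N2, fun n hn => ?_⟩
  have a1 := hN1 n ((le_max_left _ _).trans hn.le)
  have a2 := hN2 n ((le_max_right _ _).trans hn.le)
  rw [neg_apply] at a2
  rw [Real.dist_eq, sub_zero, abs_lt]
  constructor <;> linarith

/-- For fixed first index, the nodes form one family of the norming set. -/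
theorem sum_co_le (n : ℕ) (w : Om) (S : Finset ℕ) (x : X) :
    ∑ k ∈ S, |co (tn n k w) x| ≤ 2 * ‖x‖ := by
  classical
  have hinj : ∀ k k', tn n k w = tn n k' w → k = k' := by
    intro k k' h
    have := congrArg lv h
    rw [lv_tn, lv_tn] at this
    exact (Nat.pair_eq_pair.1 this).2
  let F : T → ℝ := fun t =>
    if t ∈ S.image (fun k => tn n k w) then 1 / 2 * SignType.sign (co t x) else 0
  have hKF : K F := by
    refine K.node (fun k => Pi.single (tn n k w) 1) (fun k => K.coord _)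
      {l | (Nat.unpair l).1 = n ∨ w s(n, (Nat.unpair l).1) = true} True
      (fun k k' hk s t hs ht => ?_) F (fun t ht => ?_)
    · have e1 : s = tn n k w := by
        by_contra h
        exact hs (by simp [h])
      have e2 : t = tn n k' w := by
        by_contra h
        exact ht (by simp [h])
      have hlt : Nat.pair n k < Nat.pair n k' := Nat.pair_lt_pair_right n hk
      rw [e1, e2, lv_tn, lv_tn]
      refine ⟨hlt, fun l hl => ?_, ?_⟩
      · rw [mem_tn _ _ _ _ (hl.trans hlt)]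
        rfl
      · rw [mem_tn _ _ _ _ hlt, Nat.unpair_pair]
        simp
    · by_cases h : t ∈ S.image (fun k => tn n k w)
      · obtain ⟨k, _, hk⟩ := Finset.mem_image.1 h
        refine ⟨k, ?_⟩
        simp only [F, if_pos h]
        rw [← hk, Pi.single_eq_same, abs_one, mul_one, abs_mul,
          abs_of_pos (by norm_num : (0:ℝ) < 1 / 2)]
        have : |((SignType.sign (co (tn n k w) x) : SignType) : ℝ)| ≤ 1 := by
          rcases SignType.trichotomy (SignType.sign (co (tn n k w) x)) with h | h | h <;>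
            rw [h] <;> simp
        linarith
      · exact absurd (by simp only [F, if_neg h]) ht
  have h1 := ev_eq_sum hKF (S.image (fun k => tn n k w))
    (fun t ht => by simp only [F, if_neg ht]) x
  have h2 : ∑ t ∈ S.image (fun k => tn n k w), F t * co t x =
      ∑ k ∈ S, 1 / 2 * |co (tn n k w) x| := by
    rw [Finset.sum_image (fun k _ k' _ h => hinj k k' h)]
    refine Finset.sum_congr rfl fun k hk => ?_
    have : tn n k w ∈ S.image (fun k => tn n k w) := Finset.mem_image_of_mem _ hk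
    simp only [F, if_pos this]
    rw [mul_assoc, sign_mul_self]
  have h3 := (le_abs_self _).trans (abs_ev_le F hKF x)
  rw [h1, h2, ← Finset.mul_sum] at h3
  linarith

/-- The coordinate functionals on the Bochner space. -/
noncomputable def ckv (n k : ℕ) (f : Lp X 1 mu) : ℝ := ∫ w, co (tn n k w) (f w) ∂mu

theorem integrable_ckv (n k : ℕ) (f : Lp X 1 mu) :
    Integrable (fun w => co (tn n k w) (f w)) mu := by
  refine (L1.integrable_coeFn f).norm.mono' ?_ (ae_of_all _ fun w => ?_)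
  · exact (ContinuousLinearMap.id ℝ (X →L[ℝ] ℝ)).aestronglyMeasurable_comp₂
      (stronglyMeasurable_comp_tn co n k).aestronglyMeasurable
      (L1.integrable_coeFn f).aestronglyMeasurable
  · rw [Real.norm_eq_abs]
    exact abs_co_le _ _

theorem ckv_add (n k : ℕ) (f g : Lp X 1 mu) : ckv n k (f + g) = ckv n k f + ckv n k g := by
  unfold ckv
  rw [← integral_add (integrable_ckv n k f) (integrable_ckv n k g)]
  refine integral_congr_ae ?_
  filter_upwards [Lp.coeFn_add f g] with w hw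
  rw [hw, Pi.add_apply, map_add]

theorem ckv_smul (n k : ℕ) (c : ℝ) (f : Lp X 1 mu) : ckv n k (c • f) = c * ckv n k f := by
  unfold ckv
  rw [← integral_const_mul]
  refine integral_congr_ae ?_
  filter_upwards [Lp.coeFn_smul c f] with w hw
  rw [hw, Pi.smul_apply, map_smul, smul_eq_mul]

theorem sum_ckv_le (n : ℕ) (f : Lp X 1 mu) (S : Finset ℕ) :
    ∑ k ∈ S, |ckv n k f| ≤ 2 * ‖f‖ := by
  calc ∑ k ∈ S, |ckv n k f| ≤ ∑ k ∈ S, ∫ w, |co (tn n k w) (f w)| ∂mu :=
        Finset.sum_le_sum fun k _ => abs_integral_le_integral_abs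
    _ = ∫ w, ∑ k ∈ S, |co (tn n k w) (f w)| ∂mu :=
        (integral_finsetSum S fun k _ => (integrable_ckv n k f).abs).symm
    _ ≤ ∫ w, 2 * ‖f w‖ ∂mu := by
        refine integral_mono (integrable_finsetSum _ fun k _ => (integrable_ckv n k f).abs)
          ((L1.integrable_coeFn f).norm.const_mul 2) fun w => sum_co_le n w S (f w)
    _ = 2 * ‖f‖ := by rw [integral_const_mul, L1.norm_eq_integral_norm]

theorem summable_ckv (n : ℕ) (f : Lp X 1 mu) : Summable fun k => |ckv n k f| :=
  summable_of_sum_le (fun _ => abs_nonneg _) (sum_ckv_le n f)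

theorem summable_ckv' (n N : ℕ) (f : Lp X 1 mu) : Summable fun k => ckv n (k + N) f :=
  (summable_nat_add_iff N).2 (summable_ckv n f).of_abs

/-- The tail functionals on the Bochner space. -/
noncomputable def tailF (n N : ℕ) : Lp X 1 mu →L[ℝ] ℝ :=
  LinearMap.mkContinuous
    { toFun := fun f => ∑' k, ckv n (k + N) f
      map_add' := fun f g => by
        simp only [ckv_add]
        exact (summable_ckv' n N f).tsum_add (summable_ckv' n N g)
      map_smul' := fun c f => by
        simp only [ckv_smul, RingHom.id_apply, smul_eq_mul]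
        exact tsum_mul_left } 2 (fun f => by
      change ‖∑' k, ckv n (k + N) f‖ ≤ 2 * ‖f‖
      have h1 : Summable fun k => ‖ckv n (k + N) f‖ :=
        (summable_nat_add_iff (f := fun k => ‖ckv n k f‖) N).2 (summable_ckv n f)
      refine (norm_tsum_le_tsum_norm h1).trans ?_
      refine h1.tsum_le_of_sum_le fun u => ?_
      have h2 : ∑ k ∈ u, ‖ckv n (k + N) f‖ = ∑ k ∈ u.map (addRightEmbedding N), |ckv n k f| := by
        rw [Finset.sum_map]
        rfl
      rw [h2]
      exact sum_ckv_le n f _)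

theorem tailF_apply (n N : ℕ) (f : Lp X 1 mu) : tailF n N f = ∑' k, ckv n (k + N) f := rfl

theorem abs_tailF_le (n N : ℕ) (f : Lp X 1 mu) : |tailF n N f| ≤ 2 * ‖f‖ := by
  have h1 := (tailF n N).le_opNorm f
  have h2 : ‖tailF n N‖ ≤ 2 := LinearMap.mkContinuous_norm_le _ (by norm_num) _
  rw [Real.norm_eq_abs] at h1
  exact h1.trans (mul_le_mul_of_nonneg_right h2 (norm_nonneg _))

theorem tendsto_tailF (n : ℕ) (f : Lp X 1 mu) : Tendsto (fun N => tailF n N f) atTop (𝓝 0) :=
  tendsto_sum_nat_add fun k => ckv n k f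

theorem ckv_fL (n k i : ℕ) : ckv n i (fL n k) = if i = k then 1 else 0 := by
  classical
  have h1 : ckv n i (fL n k) = ∫ _w : Om, (if i = k then (1 : ℝ) else 0) ∂mu := by
    refine integral_congr_ae ?_
    filter_upwards [coeFn_fL n k] with w hw
    rw [hw, fn, co_j, Finsupp.single_apply]
    by_cases h : i = k
    · rw [h]
      simp
    · rw [if_neg h, if_neg]
      intro h'
      apply h
      have := congrArg lv h'
      rw [lv_tn, lv_tn] at this
      exact (Nat.pair_eq_pair.1 this).2.symm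
  rw [h1]
  simp

theorem tailF_fL (n N k : ℕ) (h : N ≤ k) : tailF n N (fL n k) = 1 := by
  rw [tailF_apply, tsum_eq_single (k - N)]
  · rw [ckv_fL, if_pos (by omega)]
  · intro i hi
    rw [ckv_fL, if_neg (by omega)]

/-- Weak convergence of a sequence to zero in terms of functionals. -/
theorem isCompact_insert_zero {E : Type} [NormedAddCommGroup E] [NormedSpace ℝ E] (h : ℕ → E)
    (hh : ∀ g : E →L[ℝ] ℝ, Tendsto (fun n => g (h n)) atTop (𝓝 0)) :
    IsCompact (toWeakSpace ℝ E '' (insert 0 (Set.range h))) := by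
  have h1 : Tendsto (fun n => toWeakSpace ℝ E (h n)) atTop (𝓝 (toWeakSpace ℝ E 0)) := by
    have hind : IsInducing (fun (x : WeakSpace ℝ E) (g : E →L[ℝ] ℝ) =>
        (topDualPairing ℝ E).flip x g) := ⟨rfl⟩
    rw [hind.tendsto_nhds_iff, tendsto_pi_nhds]
    intro g
    have h2 := hh g
    have h3 : Tendsto (fun n => g (h n)) atTop (𝓝 (g 0)) := by
      rw [map_zero]; exact h2
    exact h3
  have h4 := h1.isCompact_insert_range
  have h5 : toWeakSpace ℝ E '' (insert 0 (Set.range h)) =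
      insert (toWeakSpace ℝ E 0) (Set.range fun n => toWeakSpace ℝ E (h n)) := by
    rw [Set.image_insert_eq, ← Set.range_comp]
    rfl
  rw [h5]
  exact h4

theorem finite_absorbed {S : Set (Lp X 1 mu)} (hS : IsCompact (toWeakSpace ℝ (Lp X 1 mu) '' S))
    (m n : ℕ) : {k | fL n k ∈ (m : ℝ) • S + Metric.closedBall (0 : Lp X 1 mu) (1 / 4)}.Finite := by
  by_contra hcon
  have hinf : {k | fL n k ∈ (m : ℝ) • S + Metric.closedBall (0 : Lp X 1 mu) (1 / 4)}.Infinite :=
    hcon
  obtain ⟨u, hu, huk⟩ := Nat.exists_strictMono_subsequence (P := fun k =>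
    fL n k ∈ (m : ℝ) • S + Metric.closedBall (0 : Lp X 1 mu) (1 / 4))
    (fun N => by
      obtain ⟨k, hk, hk'⟩ := hinf.exists_gt N
      exact ⟨k, hk', hk⟩)
  have hdec : ∀ i, ∃ s ∈ S, ‖fL n (u i) - (m : ℝ) • s‖ ≤ 1 / 4 := by
    intro i
    obtain ⟨a, ha, b, hb, hab⟩ := Set.mem_add.1 (huk i)
    obtain ⟨s, hs, rfl⟩ := Set.mem_smul_set.1 ha
    refine ⟨s, hs, ?_⟩
    rw [← hab, add_sub_cancel_left]
    exact mem_closedBall_zero_iff.1 hb
  choose s hs hsb using hdec
  obtain ⟨v, _, hv⟩ := exists_weak_limit hS s hs (hyperfilter ℕ)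
  have hN : ∀ N, 1 / 2 ≤ (m : ℝ) * tailF n N v := by
    intro N
    have h1 : Tendsto (fun i => (m : ℝ) * tailF n N (s i)) (hyperfilter ℕ)
        (𝓝 ((m : ℝ) * tailF n N v)) := (hv (tailF n N)).const_mul _
    refine ge_of_tendsto h1 ?_
    have h2 : ∀ᶠ i in (hyperfilter ℕ : Filter ℕ), N ≤ i :=
      (eventually_ge_atTop N).filter_mono Nat.hyperfilter_le_atTop
    filter_upwards [h2] with i hi
    have h3 : tailF n N (fL n (u i)) = 1 := tailF_fL n N (u i) (hi.trans (hu.id_le i))
    have h4 := (abs_tailF_le n N (fL n (u i) - (m : ℝ) • s i)).trans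
      (mul_le_mul_of_nonneg_left (hsb i) (by norm_num))
    rw [map_sub, map_smul, smul_eq_mul, h3] at h4
    have h5 := (abs_le.1 h4).2
    linarith
  have hlim : Tendsto (fun N => (m : ℝ) * tailF n N v) atTop (𝓝 ((m : ℝ) * 0)) :=
    (tendsto_tailF n v).const_mul _
  rw [mul_zero] at hlim
  have := ge_of_tendsto hlim (Filter.Eventually.of_forall hN)
  linarith

/-- The Bochner space is not strongly weakly compactly generated. -/
theorem not_swcg : ¬ ∃ S : Set (Lp X 1 mu), IsCompact (toWeakSpace ℝ (Lp X 1 mu) '' S) ∧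
    ∀ L : Set (Lp X 1 mu), IsCompact (toWeakSpace ℝ (Lp X 1 mu) '' L) → ∀ ε : ℝ, 0 < ε →
      ∃ n : ℕ, L ⊆ (n : ℝ) • S + Metric.closedBall (0 : Lp X 1 mu) ε := by
  rintro ⟨S, hS, hgen⟩
  have hb : ∀ n : ℕ, ∃ B : ℕ, ∀ k,
      fL n k ∈ (n : ℝ) • S + Metric.closedBall (0 : Lp X 1 mu) (1 / 4) → k ≤ B := by
    intro n
    obtain ⟨B, hB⟩ := (finite_absorbed hS n n).bddAbove
    exact ⟨B, fun k hk => hB hk⟩
  choose B hB using hb
  obtain ⟨m, hm⟩ := hgen _ (isCompact_insert_zero (fun n => fL n (B n + 1))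
    (fun g => weakly_null (fun n => B n + 1) g)) (1 / 4) (by norm_num)
  have h1 := hm (Set.mem_insert_of_mem _ ⟨m, rfl⟩)
  have h2 := hB m (B m + 1) h1
  omega

end Pool.Agent.SWCG
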