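import Mathlib

set_option autoImplicit false

open Filter Topology

namespace Pool.Agent.SWCG

/-- The index set: finite sets of natural numbers. -/
abbrev T : Type := Finset ℕ

/-- The level of a node. -/
def lv (t : T) : ℕ := t.sup id

/-- The norming family of functionals. -/
inductive K : (T → ℝ) → Prop
  | single (t : T) (F : T → ℝ) (h0 : ∀ s, s ≠ t → F s = 0) (h1 : |F t| ≤ 1) : K F
  | node (φ : ℕ → T → ℝ) (hφ : ∀ i, K (φ i)) (τ : Set ℕ) (e : Prop)
      (hR : ∀ i j, i < j → ∀ s t, φ i s ≠ 0 → φ j t ≠ 0 →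
        lv s < lv t ∧ (∀ l, l < lv s → (l ∈ t ↔ l ∈ τ)) ∧ (lv s ∈ t ↔ e))
      (F : T → ℝ) (hF : ∀ t, F t ≠ 0 → ∃ i, |F t| ≤ 1 / 2 * |φ i t|) : K F

theorem K.solid {F G : T → ℝ} (hF : K F) (h : ∀ t, |G t| ≤ |F t|) : K G := by
  cases hF with
  | single t _ h0 h1 =>
    refine K.single t G (fun s hs => ?_) ((h t).trans h1)
    have := h s
    rw [h0 s hs, abs_zero] at this
    exact abs_eq_zero.1 (le_antisymm this (abs_nonneg _))
  | node φ hφ τ e hR _ hF =>
    refine K.node φ hφ τ e hR G (fun t ht => ?_)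
    have hFt : F t ≠ 0 := by
      intro h0
      have := h t
      rw [h0, abs_zero] at this
      exact ht (abs_eq_zero.1 (le_antisymm this (abs_nonneg _)))
    obtain ⟨i, hi⟩ := hF t hFt
    exact ⟨i, (h t).trans hi⟩

theorem K.abs_le_one {F : T → ℝ} (hF : K F) : ∀ t, |F t| ≤ 1 := by
  induction hF with
  | single t F h0 h1 =>
    intro s
    by_cases hs : s = t
    · rw [hs]; exact h1
    · rw [h0 s hs, abs_zero]; exact zero_le_one
  | node φ hφ τ e hR F hF ih =>
    intro t
    by_cases ht : F t = 0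
    · rw [ht, abs_zero]; exact zero_le_one
    · obtain ⟨i, hi⟩ := hF t ht
      have := ih i t
      linarith

theorem K.zero : K (fun _ => 0) :=
  K.single ∅ _ (fun _ _ => rfl) (by simp)

theorem K.indicator {F : T → ℝ} (hF : K F) (A : Set T) : K (A.indicator F) := by
  refine hF.solid (fun t => ?_)
  by_cases ht : t ∈ A
  · rw [Set.indicator_of_mem ht]
  · rw [Set.indicator_of_notMem ht, abs_zero]; exact abs_nonneg _

theorem K.coord (t : T) : K (Pi.single t 1) := by
  refine K.single t _ (fun s hs => by simp [hs]) (by simp)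

/-- The pairing of a functional with a finitely supported vector. -/
noncomputable def pr (F : T → ℝ) : (T →₀ ℝ) →ₗ[ℝ] ℝ := Finsupp.linearCombination ℝ F

theorem pr_apply (F : T → ℝ) (v : T →₀ ℝ) : pr F v = ∑ t ∈ v.support, v t * F t := by
  simp [pr, Finsupp.linearCombination_apply, Finsupp.sum]

theorem pr_apply_of_subset (F : T → ℝ) (v : T →₀ ℝ) (S : Finset T) (h : v.support ⊆ S) :
    pr F v = ∑ t ∈ S, v t * F t := by
  rw [pr_apply]
  refine Finset.sum_subset h (fun t _ ht => ?_)
  rw [Finsupp.notMem_support_iff.1 ht, zero_mul]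

theorem abs_pr_le {F : T → ℝ} (hF : ∀ t, |F t| ≤ 1) (v : T →₀ ℝ) :
    |pr F v| ≤ ∑ t ∈ v.support, |v t| := by
  rw [pr_apply]
  refine (Finset.abs_sum_le_sum_abs _ _).trans (Finset.sum_le_sum fun t _ => ?_)
  rw [abs_mul]
  exact mul_le_of_le_one_right (abs_nonneg _) (hF t)

/-- The norming set as a type, with the topology of pointwise convergence. -/
abbrev KK : Type := {F : T → ℝ // K F}

/-- The canonical map from finitely supported vectors to bounded functions. -/
noncomputable def J : (T →₀ ℝ) →ₗ[ℝ] (BoundedContinuousFunction KK ℝ) where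
  toFun v := BoundedContinuousFunction.ofNormedAddCommGroup (fun F : KK => pr F.1 v)
    (by
      simp only [pr_apply]
      exact continuous_finsetSum _ (fun t _ => continuous_const.mul
        ((continuous_apply t).comp continuous_subtype_val))) (∑ t ∈ v.support, |v t|) (fun F => by
      rw [Real.norm_eq_abs]
      exact abs_pr_le F.2.abs_le_one v)
  map_add' v w := by
    ext F
    simp
  map_smul' c v := by
    ext F
    simp

@[simp] theorem J_apply (v : T →₀ ℝ) (F : KK) : J v F = pr F.1 v := rfl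

/-- The closed subspace generated by the finitely supported vectors. -/
noncomputable abbrev Xs : Submodule ℝ (BoundedContinuousFunction KK ℝ) :=
  (LinearMap.range J).topologicalClosure

/-- The Banach space. -/
def X : Type := ↥Xs

noncomputable instance instNACG : NormedAddCommGroup X :=
  inferInstanceAs (NormedAddCommGroup ↥Xs)

noncomputable instance instNS : NormedSpace ℝ X :=
  inferInstanceAs (NormedSpace ℝ ↥Xs)

instance instCS : CompleteSpace X :=
  (Submodule.isClosed_topologicalClosure (LinearMap.range J)).completeSpace_coe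

/-- The inclusion into the space of bounded functions. -/
noncomputable def inc : X →ₗᵢ[ℝ] BoundedContinuousFunction KK ℝ where
  toFun x := Subtype.val x
  map_add' _ _ := rfl
  map_smul' _ _ := rfl
  norm_map' _ := rfl

/-- Finitely supported vectors in the space. -/
noncomputable def j : (T →₀ ℝ) →ₗ[ℝ] X where
  toFun v := ⟨J v, Submodule.le_topologicalClosure _ (LinearMap.mem_range_self J v)⟩
  map_add' v w := by
    apply Subtype.ext
    exact map_add J v w
  map_smul' c v := by
    apply Subtype.ext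
    exact map_smul J c v

theorem inc_j (v : T →₀ ℝ) : inc (j v) = J v := rfl

/-- Evaluation at an element of the norming set. -/
noncomputable def ev (F : T → ℝ) (hF : K F) : X →L[ℝ] ℝ :=
  (BoundedContinuousFunction.evalCLM ℝ (⟨F, hF⟩ : KK)).comp inc.toContinuousLinearMap

theorem ev_apply (F : T → ℝ) (hF : K F) (x : X) :
    ev F hF x = inc x ⟨F, hF⟩ := rfl

@[simp] theorem ev_j (F : T → ℝ) (hF : K F) (v : T →₀ ℝ) : ev F hF (j v) = pr F v := rfl

theorem abs_ev_le (F : T → ℝ) (hF : K F) (x : X) : |ev F hF x| ≤ ‖x‖ := by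
  rw [ev_apply, ← Real.norm_eq_abs, ← inc.norm_map x]
  exact BoundedContinuousFunction.norm_coe_le_norm _ _

theorem norm_le_of_ev {x : X} {C : ℝ} (hC : 0 ≤ C) (h : ∀ F (hF : K F), |ev F hF x| ≤ C) :
    ‖x‖ ≤ C := by
  rw [← inc.norm_map x, BoundedContinuousFunction.norm_le hC]
  intro F
  exact h F.1 F.2

theorem exists_approx (x : X) {ε : ℝ} (hε : 0 < ε) : ∃ v : T →₀ ℝ, ‖x - j v‖ < ε := by
  have hx : inc x ∈
      closure ((LinearMap.range J : Submodule ℝ _) : Set (BoundedContinuousFunction KK ℝ)) := x.2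
  rw [Metric.mem_closure_iff] at hx
  obtain ⟨b, ⟨v, rfl⟩, hb⟩ := hx ε hε
  refine ⟨v, ?_⟩
  rw [dist_eq_norm, ← inc_j, ← map_sub, inc.norm_map] at hb
  exact hb

/-- The coordinate functional. -/
noncomputable def co (t : T) : X →L[ℝ] ℝ := ev (Pi.single t 1) (K.coord t)

@[simp] theorem co_j (t : T) (v : T →₀ ℝ) : co t (j v) = v t := by
  classical
  rw [co, ev_j, pr_apply_of_subset _ v (insert t v.support) (Finset.subset_insert _ _)]
  rw [Finset.sum_eq_single t]
  · simp
  · intro b _ hb
    simp [hb]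
  · intro h
    simp at h

theorem abs_co_le (t : T) (x : X) : |co t x| ≤ ‖x‖ := abs_ev_le _ _ _

theorem denseRange_j : DenseRange j := by
  rw [Metric.denseRange_iff]
  intro x r hr
  obtain ⟨v, hv⟩ := exists_approx x hr
  exact ⟨v, by rw [dist_eq_norm]; exact hv⟩

theorem ev_eq_sum {F : T → ℝ} (hF : K F) (S : Finset T) (hS : ∀ t, t ∉ S → F t = 0) (x : X) :
    ev F hF x = ∑ t ∈ S, F t * co t x := by
  have h1 : (ev F hF : X → ℝ) = fun x => ∑ t ∈ S, F t * co t x := by
    refine denseRange_j.equalizer (ev F hF).continuous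
      (continuous_finsetSum _ fun t _ => continuous_const.mul (co t).continuous) ?_
    funext v
    simp only [Function.comp_apply, ev_j, co_j]
    classical
    rw [pr_apply_of_subset F v (S ∪ v.support) Finset.subset_union_right]
    symm
    rw [← Finset.sum_subset (Finset.subset_union_left (s₂ := v.support)) (fun t _ ht => ?_)]
    · exact Finset.sum_congr rfl fun t _ => mul_comm _ _
    · rw [hS t ht, mul_zero]
  exact congrFun h1 x

theorem eq_zero_of_co {x : X} (h : ∀ t, co t x = 0) : x = 0 := by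
  classical
  have key : ∀ ε : ℝ, 0 < ε → ‖x‖ ≤ 2 * ε := by
    intro ε hε
    obtain ⟨v, hv⟩ := exists_approx x hε
    refine norm_le_of_ev (by positivity) (fun F hF => ?_)
    set G : T → ℝ := (v.support : Set T).indicator F with hG
    have hKG : K G := hF.indicator _
    have e1 : pr F v = pr G v := by
      rw [pr_apply, pr_apply]
      refine Finset.sum_congr rfl fun t ht => ?_
      rw [hG, Set.indicator_of_mem (by exact_mod_cast ht)]
    have e2 : ev G hKG x = 0 := by
      rw [ev_eq_sum hKG v.support (fun t ht => by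
        rw [hG, Set.indicator_of_notMem (by exact_mod_cast ht)])]
      exact Finset.sum_eq_zero fun t _ => by rw [h t, mul_zero]
    have e3 : ev F hF x = ev F hF (x - j v) - ev G hKG (x - j v) := by
      rw [map_sub, map_sub, ev_j, ev_j, e1, e2]; ring
    rw [e3]
    have a1 := abs_ev_le F hF (x - j v)
    have a2 := abs_ev_le G hKG (x - j v)
    calc |ev F hF (x - j v) - ev G hKG (x - j v)|
        ≤ |ev F hF (x - j v)| + |ev G hKG (x - j v)| := abs_sub _ _
      _ ≤ 2 * ε := by linarith
  by_contra hx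
  have hpos : 0 < ‖x‖ := norm_pos_iff.2 hx
  have := key (‖x‖ / 4) (by positivity)
  linarith

theorem eq_of_co {x y : X} (h : ∀ t, co t x = co t y) : x = y := by
  rw [← sub_eq_zero]
  exact eq_zero_of_co fun t => by rw [map_sub, h t, sub_self]

theorem norm_j_le (v : T →₀ ℝ) (S : Finset T) (hS : v.support ⊆ S) :
    ‖j v‖ ≤ ∑ t ∈ S, |v t| := by
  refine norm_le_of_ev (Finset.sum_nonneg fun _ _ => abs_nonneg _) (fun F hF => ?_)
  rw [ev_j]
  refine (abs_pr_le hF.abs_le_one v).trans ?_
  exact Finset.sum_le_sum_of_subset_of_nonneg hS fun _ _ _ => abs_nonneg _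

theorem abs_pr_le_norm {F : T → ℝ} (hF : K F) (v : T →₀ ℝ) : |pr F v| ≤ ‖j v‖ := by
  have := abs_ev_le F hF (j v)
  rwa [ev_j] at this

theorem mem_low {t : T} {M : ℕ} (h : lv t < M) : t ∈ (Finset.range M).powerset := by
  rw [Finset.mem_powerset]
  intro l hl
  rw [Finset.mem_range]
  exact lt_of_le_of_lt (Finset.le_sup (f := id) hl) h

end Pool.Agent.SWCG
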