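import Pool.Agent.SWCG.Schur

set_option autoImplicit false

open Filter Topology
open scoped Pointwise

namespace Pool.Agent.SWCG

/-- Weak limits along ultrafilters in weakly compact sets. -/
theorem exists_weak_limit {E : Type} [NormedAddCommGroup E] [NormedSpace ℝ E] {L : Set E}
    (hL : IsCompact (toWeakSpace ℝ E '' L)) (x : ℕ → E) (hx : ∀ n, x n ∈ L) (U : Ultrafilter ℕ) :
    ∃ u ∈ L, ∀ g : E →L[ℝ] ℝ, Tendsto (fun n => g (x n)) U (𝓝 (g u)) := by
  have h1 : ((U.map (fun n => toWeakSpace ℝ E (x n)) : Ultrafilter _) : Filter (WeakSpace ℝ E)) ≤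
      𝓟 (toWeakSpace ℝ E '' L) := by
    rw [Filter.le_principal_iff]
    rw [Ultrafilter.mem_coe, Ultrafilter.mem_map]
    exact Filter.univ_mem' fun n => Set.mem_image_of_mem _ (hx n)
  obtain ⟨y, ⟨u, hu, rfl⟩, hy⟩ := hL.ultrafilter_le_nhds _ h1
  refine ⟨u, hu, fun g => ?_⟩
  have hg : Continuous fun z : WeakSpace ℝ E => g ((toWeakSpace ℝ E).symm z) :=
    WeakBilin.eval_continuous (topDualPairing ℝ E).flip g
  have h2 : Tendsto (fun n => toWeakSpace ℝ E (x n)) U (𝓝 (toWeakSpace ℝ E u)) := hy
  have h3 := (hg.tendsto (toWeakSpace ℝ E u)).comp h2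
  simpa [Function.comp_def] using h3

theorem isCompact_image_of_weak {E : Type} [NormedAddCommGroup E] [NormedSpace ℝ E] {L : Set E}
    (hL : IsCompact (toWeakSpace ℝ E '' L)) (g : E →L[ℝ] ℝ) : IsCompact (g '' L) := by
  have hg : Continuous fun z : WeakSpace ℝ E => g ((toWeakSpace ℝ E).symm z) :=
    WeakBilin.eval_continuous (topDualPairing ℝ E).flip g
  have := hL.image hg
  rw [Set.image_image] at this
  simpa using this

/-- Weakly compact subsets of the space are totally bounded. -/
theorem totallyBounded_of_weak {L : Set X} (hL : IsCompact (toWeakSpace ℝ X '' L)) :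
    TotallyBounded L := by
  classical
  by_contra hcon
  rw [Metric.totallyBounded_iff] at hcon
  push Not at hcon
  obtain ⟨ε, hε, hcov⟩ := hcon
  obtain ⟨x, hxL, hxx⟩ := exists_seq_of_forall_finset_exists (fun z : X => z ∈ L)
    (fun z w => ε ≤ dist z w) (by
      intro s _
      have := hcov (s : Set X) s.finite_toSet
      rw [Set.not_subset] at this
      obtain ⟨y, hy, hy'⟩ := this
      refine ⟨y, hy, fun z hz => ?_⟩
      by_contra h
      apply hy'
      simp only [Set.mem_iUnion, Metric.mem_ball]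
      exact ⟨z, by exact_mod_cast hz, by rw [dist_comm]; exact not_le.1 h⟩)
  have hcomp : IsCompact (Set.pi Set.univ (fun t : T => (co t) '' L)) :=
    isCompact_univ_pi fun t => isCompact_image_of_weak hL (co t)
  obtain ⟨a, _, φ, hφ, ha⟩ := hcomp.tendsto_subseq (x := fun n t => co t (x n))
    (fun n t _ => Set.mem_image_of_mem _ (hxL n))
  have ha' : ∀ t, Tendsto (fun n => co t (x (φ n))) atTop (𝓝 (a t)) := by
    intro t
    exact (tendsto_pi_nhds.1 ha) t
  obtain ⟨u, hu, hug⟩ := exists_weak_limit hL (fun n => x (φ n)) (fun n => hxL _) (hyperfilter ℕ)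
  have hua : ∀ t, co t u = a t := fun t =>
    tendsto_nhds_unique (hug (co t)) ((ha' t).mono_left Nat.hyperfilter_le_atTop)
  have hfar : ∃ N, ∀ n, N ≤ n → ε / 2 ≤ ‖x (φ n) - u‖ := by
    by_contra hno
    push Not at hno
    obtain ⟨m, _, hm⟩ := hno 0
    obtain ⟨n, hn1, hn⟩ := hno (m + 1)
    have h1 := hxx (φ m) (φ n) (hφ (by omega))
    have h2 : dist (x (φ m)) (x (φ n)) ≤ ‖x (φ m) - u‖ + ‖x (φ n) - u‖ := by
      rw [← dist_eq_norm, ← dist_eq_norm]
      exact dist_triangle_right _ _ _
    linarith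
  obtain ⟨N, hN⟩ := hfar
  obtain ⟨g, c, w, hc, hw, hgw⟩ := key (fun n => x (φ (n + N)) - u)
    (fun t => by
      have h1 : Tendsto (fun n => co t (x (φ (n + N))) - a t) atTop (𝓝 (a t - a t)) :=
        (((ha' t).comp (tendsto_add_atTop_nat N))).sub_const _
      rw [sub_self] at h1
      refine h1.congr fun n => ?_
      rw [map_sub, hua t])
    (ε := ε / 2) (by positivity) (fun n => hN _ (Nat.le_add_left _ _))
  obtain ⟨u', hu', hug'⟩ := exists_weak_limit hL (fun i => x (φ (w i + N))) (fun n => hxL _)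
    (hyperfilter ℕ)
  have hwt : Tendsto (fun i => w i + N) atTop atTop :=
    (tendsto_add_atTop_nat N).comp hw.tendsto_atTop
  have hua' : ∀ t, co t u' = a t := fun t =>
    tendsto_nhds_unique (hug' (co t))
      (((ha' t).comp hwt).mono_left Nat.hyperfilter_le_atTop)
  have huu : u' = u := eq_of_co fun t => by rw [hua, hua']
  have hlim := hug' g
  have hge : c + g u ≤ g u' := by
    refine ge_of_tendsto hlim (Filter.Eventually.of_forall fun i => ?_)
    have := hgw i
    rw [map_sub] at this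
    linarith
  rw [huu] at hge
  linarith

theorem separableSpace_X : TopologicalSpace.SeparableSpace X := by
  have h1 : TopologicalSpace.IsSeparable (Set.range fun t : T => j (Finsupp.single t 1)) :=
    (Set.countable_range _).isSeparable
  have h2 := h1.span (R := ℝ)
  have h3 := TopologicalSpace.isSeparable_closure.2 h2
  rw [← TopologicalSpace.isSeparable_univ_iff]
  refine h3.mono ?_
  intro x _
  have h4 : Set.range j ⊆ (Submodule.span ℝ (Set.range fun t : T => j (Finsupp.single t 1)) :
      Set X) := by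
    rintro _ ⟨v, rfl⟩
    have e1 : j v = ∑ t ∈ v.support, v t • j (Finsupp.single t 1) := by
      conv_lhs => rw [← Finsupp.sum_single v]
      rw [Finsupp.sum, map_sum]
      refine Finset.sum_congr rfl fun t _ => ?_
      rw [← map_smul, Finsupp.smul_single, smul_eq_mul, mul_one]
    rw [e1]
    exact Submodule.sum_mem _ fun t _ => Submodule.smul_mem _ _
      (Submodule.subset_span (Set.mem_range_self t))
  exact closure_mono h4 (denseRange_j x)

/-- The space is strongly weakly compactly generated. -/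
theorem swcg_X : ∃ S : Set X, IsCompact (toWeakSpace ℝ X '' S) ∧
    ∀ L : Set X, IsCompact (toWeakSpace ℝ X '' L) → ∀ ε : ℝ, 0 < ε →
      ∃ n : ℕ, L ⊆ (n : ℝ) • S + Metric.closedBall (0 : X) ε := by
  classical
  have := separableSpace_X
  set x : ℕ → X := TopologicalSpace.denseSeq X with hx
  set c : ℕ → ℝ := fun i => 1 / ((i + 1) * (1 + ‖x i‖)) with hc
  have hcpos : ∀ i, 0 < c i := fun i => by positivity
  have hy : Tendsto (fun i => c i • x i) atTop (𝓝 0) := by
    rw [tendsto_zero_iff_norm_tendsto_zero]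
    refine squeeze_zero (fun i => norm_nonneg _) (fun i => ?_)
      (tendsto_one_div_add_atTop_nhds_zero_nat (𝕜 := ℝ))
    rw [norm_smul, Real.norm_of_nonneg (hcpos i).le, hc]
    have h1 : 0 ≤ ‖x i‖ := norm_nonneg _
    have h2 : (0 : ℝ) < (i : ℝ) + 1 := by positivity
    rw [one_div_mul_eq_div, div_le_div_iff₀ (by positivity) h2]
    nlinarith
  have hcomp : IsCompact (insert (0 : X) (Set.range fun i => c i • x i)) :=
    hy.isCompact_insert_range
  set S : Set X := (fun p : ℝ × X => p.1 • p.2) ''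
    (Set.Icc 0 1 ×ˢ insert (0 : X) (Set.range fun i => c i • x i)) with hS
  have hScomp : IsCompact S := (isCompact_Icc.prod hcomp).image continuous_smul
  refine ⟨S, hScomp.image (toWeakSpaceCLM ℝ X).continuous, fun L hL ε hε => ?_⟩
  have htb := totallyBounded_of_weak hL
  rw [Metric.totallyBounded_iff] at htb
  obtain ⟨t, htf, ht⟩ := htb (ε / 2) (by positivity)
  have hch : ∀ y : X, ∃ i, dist y (x i) < ε / 2 := fun y =>
    (TopologicalSpace.denseRange_denseSeq X).exists_dist_lt y (by positivity)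
  choose q hq using hch
  set I : Finset ℕ := htf.toFinset.image q with hI
  set n : ℕ := I.sup (fun i => ⌈1 / c i⌉₊) with hn
  refine ⟨n, fun z hz => ?_⟩
  obtain ⟨y, hyt, hzy⟩ := Set.mem_iUnion₂.1 (ht hz)
  have hqI : q y ∈ I := Finset.mem_image_of_mem _ (htf.mem_toFinset.2 hyt)
  have h1 : ⌈1 / c (q y)⌉₊ ≤ n := Finset.le_sup (f := fun i => ⌈1 / c i⌉₊) hqI
  have h2 : 1 / c (q y) ≤ n := (Nat.le_ceil _).trans (by exact_mod_cast h1)
  have hcp := hcpos (q y)
  have h3 : (0 : ℝ) < n := lt_of_lt_of_le (by positivity) h2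
  rw [Set.mem_add]
  refine ⟨x (q y), ?_, z - x (q y), ?_, by abel⟩
  · rw [Set.mem_smul_set]
    refine ⟨(1 / (n * c (q y))) • (c (q y) • x (q y)), ?_, ?_⟩
    · refine ⟨(1 / (n * c (q y)), c (q y) • x (q y)), ⟨⟨by positivity, ?_⟩, ?_⟩, rfl⟩
      · change 1 / (n * c (q y)) ≤ 1
        rw [div_le_one (by positivity)]
        rwa [div_le_iff₀ hcp] at h2
      · exact Set.mem_insert_of_mem _ ⟨q y, rfl⟩
    · rw [smul_smul, smul_smul]
      have : (n : ℝ) * (1 / (n * c (q y))) * c (q y) = 1 := by
        field_simp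
      rw [this, one_smul]
  · rw [mem_closedBall_zero_iff, ← dist_eq_norm]
    have h4 := hq y
    have h5 : dist z y < ε / 2 := hzy
    have h6 := dist_triangle z y (x (q y))
    linarith

end Pool.Agent.SWCG
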