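import Pool.Agent.SWCG.Generated

set_option autoImplicit false

open Filter Topology MeasureTheory
open scoped Pointwise

namespace Pool.Agent.SWCG

theorem combine (A : Finset ℕ) (ι : ℕ → ℕ) (C D : ℕ → Finset ℕ)
    (hC : ∀ i, C i ⊆ A.filter (fun n => ι n = i))
    (hcard : ∀ i, (A.filter (fun n => ι n = i)).card ≤ (C i).card * (D i).card) :
    ∃ i0, A.card ≤ ((A.image ι).biUnion C).card * (D i0).card := by
  classical
  rcases A.eq_empty_or_nonempty with rfl | hA
  · exact ⟨0, by simp⟩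
  obtain ⟨i0, _, hi0⟩ := Finset.exists_max_image (A.image ι) (fun i => (D i).card) (hA.image ι)
  refine ⟨i0, ?_⟩
  have h1 : A.card = ∑ i ∈ A.image ι, (A.filter (fun n => ι n = i)).card :=
    Finset.card_eq_sum_card_image ι A
  have h2 : ((A.image ι).biUnion C).card = ∑ i ∈ A.image ι, (C i).card := by
    refine Finset.card_biUnion fun i _ i' _ hne => ?_
    change Disjoint (C i) (C i')
    rw [Finset.disjoint_left]
    intro n hn hn'
    have e1 := (Finset.mem_filter.1 (hC i hn)).2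
    have e2 := (Finset.mem_filter.1 (hC i' hn')).2
    exact hne (e1.symm.trans e2)
  rw [h1, h2, Finset.sum_mul]
  exact Finset.sum_le_sum fun i hi => (hcard i).trans (Nat.mul_le_mul_left _ (hi0 i hi))

/-- The support of a functional along a family of nodes is controlled by homogeneous sets. -/
theorem cograph {F : T → ℝ} (hF : K F) (t : ℕ → T) (G : ℕ → ℕ → Prop)
    (hsymm : ∀ n n', G n n' → G n' n) (hlv : ∀ n n', n ≠ n' → lv (t n) ≠ lv (t n'))
    (hG : ∀ n n', n ≠ n' → lv (t n) < lv (t n') → (lv (t n) ∈ t n' ↔ G n n')) :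
    ∀ A : Finset ℕ, (∀ n ∈ A, F (t n) ≠ 0) → ∃ C ⊆ A, ∃ D ⊆ A,
      (∀ n ∈ C, ∀ n' ∈ C, n ≠ n' → G n n') ∧ (∀ n ∈ D, ∀ n' ∈ D, n ≠ n' → ¬ G n n') ∧
      A.card ≤ C.card * D.card := by
  classical
  induction hF with
  | single t0 F h0 h1 =>
    intro A hA
    have hsub : ∀ n ∈ A, ∀ n' ∈ A, n = n' := by
      intro n hn n' hn'
      by_contra hne
      have e1 : t n = t0 := by
        by_contra h
        exact hA n hn (h0 _ h)
      have e2 : t n' = t0 := by
        by_contra h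
        exact hA n' hn' (h0 _ h)
      exact hlv n n' hne (by rw [e1, e2])
    exact ⟨A, subset_rfl, A, subset_rfl, fun n hn n' hn' h => absurd (hsub n hn n' hn') h,
      fun n hn n' hn' h => absurd (hsub n hn n' hn') h, Nat.le_mul_self _⟩
  | node φ hφ τ e hR F hF ih =>
    intro A hA
    have hex : ∀ n, ∃ i, n ∈ A → φ i (t n) ≠ 0 := by
      intro n
      by_cases hn : n ∈ A
      · obtain ⟨i, hi⟩ := hF (t n) (hA n hn)
        refine ⟨i, fun _ h0 => ?_⟩
        rw [h0, abs_zero, mul_zero] at hi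
        exact hA n hn (abs_eq_zero.1 (le_antisymm hi (abs_nonneg _)))
      · exact ⟨0, fun h => absurd h hn⟩
    choose ι hι using hex
    have hch : ∀ i, ∃ C ⊆ A.filter (fun n => ι n = i), ∃ D ⊆ A.filter (fun n => ι n = i),
        (∀ n ∈ C, ∀ n' ∈ C, n ≠ n' → G n n') ∧ (∀ n ∈ D, ∀ n' ∈ D, n ≠ n' → ¬ G n n') ∧
        (A.filter (fun n => ι n = i)).card ≤ C.card * D.card := by
      intro i
      refine ih i _ fun n hn => ?_
      rw [Finset.mem_filter] at hn
      have := hι n hn.1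
      rwa [hn.2] at this
    choose C hC D hD hCG hDG hcard using hch
    have hcross : ∀ n n', n ∈ A → n' ∈ A → ι n < ι n' → (G n n' ↔ e) := by
      intro n n' hn hn' hlt
      have h1 := hR (ι n) (ι n') hlt (t n) (t n') (hι n hn) (hι n' hn')
      have hne : n ≠ n' := by
        rintro rfl
        exact lt_irrefl _ hlt
      exact (hG n n' hne h1.1).symm.trans h1.2.2
    have hmemA : ∀ (E : ℕ → Finset ℕ) (hE : ∀ i, E i ⊆ A.filter (fun n => ι n = i)) (n : ℕ),
        n ∈ (A.image ι).biUnion E → n ∈ A ∧ n ∈ E (ι n) := by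
      intro E hE n hn
      obtain ⟨i, _, hi⟩ := Finset.mem_biUnion.1 hn
      have h1 := Finset.mem_filter.1 (hE i hi)
      exact ⟨h1.1, by rw [h1.2]; exact hi⟩
    by_cases he : e
    · obtain ⟨i0, hi0⟩ := combine A ι C D hC hcard
      refine ⟨(A.image ι).biUnion C, fun n hn => (hmemA C hC n hn).1, D i0,
        (hD i0).trans (Finset.filter_subset _ _), fun n hn n' hn' hne => ?_, hDG i0, hi0⟩
      obtain ⟨a1, a2⟩ := hmemA C hC n hn
      obtain ⟨b1, b2⟩ := hmemA C hC n' hn'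
      rcases lt_trichotomy (ι n) (ι n') with h | h | h
      · exact (hcross n n' a1 b1 h).2 he
      · exact hCG (ι n) n a2 n' (by rw [h]; exact b2) hne
      · exact hsymm _ _ ((hcross n' n b1 a1 h).2 he)
    · obtain ⟨i0, hi0⟩ := combine A ι D C hD (fun i => by rw [mul_comm]; exact hcard i)
      refine ⟨C i0, (hC i0).trans (Finset.filter_subset _ _), (A.image ι).biUnion D,
        fun n hn => (hmemA D hD n hn).1, hCG i0, fun n hn n' hn' hne => ?_,
        by rw [mul_comm]; exact hi0⟩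
      obtain ⟨a1, a2⟩ := hmemA D hD n hn
      obtain ⟨b1, b2⟩ := hmemA D hD n' hn'
      rcases lt_trichotomy (ι n) (ι n') with h | h | h
      · exact fun hg => he ((hcross n n' a1 b1 h).1 hg)
      · exact hDG (ι n) n a2 n' (by rw [h]; exact b2) hne
      · exact fun hg => he ((hcross n' n b1 a1 h).1 (hsymm _ _ hg))

/-- If there are no homogeneous sets of size `r`, the sum of the basis vectors is small. -/
theorem norm_sum_nodes_le (t : ℕ → T) (G : ℕ → ℕ → Prop)
    (hsymm : ∀ n n', G n n' → G n' n) (hlv : ∀ n n', n ≠ n' → lv (t n) ≠ lv (t n'))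
    (hG : ∀ n n', n ≠ n' → lv (t n) < lv (t n') → (lv (t n) ∈ t n' ↔ G n n'))
    (A : Finset ℕ) (r : ℕ)
    (hr : ∀ H ⊆ A, H.card = r → ¬ (∀ n ∈ H, ∀ n' ∈ H, n ≠ n' → G n n') ∧
      ¬ (∀ n ∈ H, ∀ n' ∈ H, n ≠ n' → ¬ G n n')) :
    ‖∑ n ∈ A, j (Finsupp.single (t n) 1)‖ ≤ (r : ℝ) ^ 2 := by
  classical
  refine norm_le_of_ev (by positivity) fun F hF => ?_
  rw [map_sum]
  have h1 : ∀ n, ev F hF (j (Finsupp.single (t n) 1)) = F (t n) := by
    intro n
    rw [ev_j, pr, Finsupp.linearCombination_single, one_smul]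
  simp only [h1]
  obtain ⟨C, hC, D, hD, hCG, hDG, hcard⟩ := cograph hF t G hsymm hlv hG
    (A.filter fun n => F (t n) ≠ 0) (fun n hn => (Finset.mem_filter.1 hn).2)
  have hCr : C.card < r := by
    by_contra hcon
    obtain ⟨H, hH, hHr⟩ := Finset.exists_subset_card_eq (not_lt.1 hcon)
    exact (hr H ((hH.trans hC).trans (Finset.filter_subset _ _)) hHr).1
      fun n hn n' hn' => hCG n (hH hn) n' (hH hn')
  have hDr : D.card < r := by
    by_contra hcon
    obtain ⟨H, hH, hHr⟩ := Finset.exists_subset_card_eq (not_lt.1 hcon)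
    exact (hr H ((hH.trans hD).trans (Finset.filter_subset _ _)) hHr).2
      fun n hn n' hn' => hDG n (hH hn) n' (hH hn')
  have h2 : ∑ n ∈ A, F (t n) = ∑ n ∈ A.filter (fun n => F (t n) ≠ 0), F (t n) :=
    (Finset.sum_filter_ne_zero A).symm
  rw [h2]
  calc |∑ n ∈ A.filter (fun n => F (t n) ≠ 0), F (t n)|
      ≤ ∑ n ∈ A.filter (fun n => F (t n) ≠ 0), |F (t n)| := Finset.abs_sum_le_sum_abs _ _
    _ ≤ ∑ n ∈ A.filter (fun n => F (t n) ≠ 0), (1 : ℝ) :=
        Finset.sum_le_sum fun n _ => hF.abs_le_one _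
    _ = ((A.filter fun n => F (t n) ≠ 0).card : ℝ) := by simp
    _ ≤ ((C.card * D.card : ℕ) : ℝ) := by exact_mod_cast hcard
    _ ≤ ((r * r : ℕ) : ℝ) := by exact_mod_cast Nat.mul_le_mul hCr.le hDr.le
    _ = (r : ℝ) ^ 2 := by push_cast; ring

/-- The fair coin. -/
noncomputable def coin : Measure Bool := (PMF.uniformOfFintype Bool).toMeasure

noncomputable instance : IsProbabilityMeasure coin := by
  unfold coin; infer_instance

theorem coin_singleton (b : Bool) : coin {b} = 1 / 2 := by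
  rw [coin, PMF.toMeasure_apply_singleton _ _ (measurableSet_singleton b)]
  simp

/-- The space of graphs on the natural numbers. -/
abbrev Om : Type := Sym2 ℕ → Bool

/-- The law of the random graph. -/
noncomputable def mu : Measure Om := Measure.infinitePi (fun _ : Sym2 ℕ => coin)

noncomputable instance : IsProbabilityMeasure mu := by
  unfold mu; infer_instance

theorem mu_mono (H : Finset ℕ) (b : Bool) :
    mu {w | ∀ n ∈ H, ∀ n' ∈ H, n ≠ n' → w s(n, n') = b} = (1 / 2) ^ (H.card.choose 2) := by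
  classical
  have h1 : {w : Om | ∀ n ∈ H, ∀ n' ∈ H, n ≠ n' → w s(n, n') = b} =
      Set.pi ((H.offDiag.image Sym2.mk.uncurry : Finset (Sym2 ℕ)) : Set (Sym2 ℕ)) (fun _ => {b}) := by
    ext w
    simp only [Set.mem_ofPred_eq, Set.mem_pi, Finset.coe_image, Set.mem_image, Finset.mem_coe,
      Finset.mem_offDiag, Set.mem_singleton_iff]
    constructor
    · rintro h _ ⟨⟨n, n'⟩, ⟨hn, hn', hne⟩, rfl⟩
      exact h n hn n' hn' hne
    · intro h n hn n' hn' hne
      exact h _ ⟨(n, n'), ⟨hn, hn', hne⟩, rfl⟩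
  rw [h1, mu, Measure.infinitePi_pi _ (fun i _ => measurableSet_singleton b)]
  simp only [coin_singleton, Finset.prod_const]
  rw [Sym2.card_image_offDiag]

/-- The event that some subset of `A` of size `r` is homogeneous. -/
def Bad (A : Finset ℕ) (r : ℕ) : Set Om :=
  ⋃ H ∈ A.powersetCard r, ({w | ∀ n ∈ H, ∀ n' ∈ H, n ≠ n' → w s(n, n') = true} ∪
    {w | ∀ n ∈ H, ∀ n' ∈ H, n ≠ n' → w s(n, n') = false})

theorem measurableSet_mono (H : Finset ℕ) (b : Bool) :
    MeasurableSet {w : Om | ∀ n ∈ H, ∀ n' ∈ H, n ≠ n' → w s(n, n') = b} := by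
  have h1 : {w : Om | ∀ n ∈ H, ∀ n' ∈ H, n ≠ n' → w s(n, n') = b} =
      ⋂ n, ⋂ n', {w : Om | n ∈ H → n' ∈ H → n ≠ n' → w s(n, n') = b} := by
    ext w
    simp only [Set.mem_ofPred_eq, Set.mem_iInter]
    exact ⟨fun h n n' a1 a2 a3 => h n a1 n' a2 a3, fun h n a1 n' a2 a3 => h n n' a1 a2 a3⟩
  rw [h1]
  refine MeasurableSet.iInter fun n => MeasurableSet.iInter fun n' => ?_
  by_cases h : n ∈ H ∧ n' ∈ H ∧ n ≠ n'
  · have h2 : {w : Om | n ∈ H → n' ∈ H → n ≠ n' → w s(n, n') = b} =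
        (fun w : Om => w s(n, n')) ⁻¹' {b} := by
      ext w
      simp only [Set.mem_ofPred_eq, Set.mem_preimage, Set.mem_singleton_iff]
      exact ⟨fun h' => h' h.1 h.2.1 h.2.2, fun h' _ _ _ => h'⟩
    rw [h2]
    exact (measurable_pi_apply _) (measurableSet_singleton b)
  · have h2 : {w : Om | n ∈ H → n' ∈ H → n ≠ n' → w s(n, n') = b} = Set.univ := by
      ext w
      simp only [Set.mem_ofPred_eq, Set.mem_univ, iff_true]
      exact fun a1 a2 a3 => absurd ⟨a1, a2, a3⟩ h
    rw [h2]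
    exact MeasurableSet.univ

theorem measurableSet_Bad (A : Finset ℕ) (r : ℕ) : MeasurableSet (Bad A r) := by
  unfold Bad
  exact Finset.measurableSet_biUnion _ fun H _ =>
    (measurableSet_mono H true).union (measurableSet_mono H false)

theorem mu_Bad_le (A : Finset ℕ) (r : ℕ) :
    mu.real (Bad A r) ≤ (A.card : ℝ) ^ r * (2 * (1 / 2) ^ (r.choose 2)) := by
  have h1 : mu.real (Bad A r) ≤ ∑ H ∈ A.powersetCard r,
      mu.real ({w : Om | ∀ n ∈ H, ∀ n' ∈ H, n ≠ n' → w s(n, n') = true} ∪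
        {w | ∀ n ∈ H, ∀ n' ∈ H, n ≠ n' → w s(n, n') = false}) :=
    measureReal_biUnion_finset_le _ _
  have h2 : ∀ H ∈ A.powersetCard r,
      mu.real ({w : Om | ∀ n ∈ H, ∀ n' ∈ H, n ≠ n' → w s(n, n') = true} ∪
        {w | ∀ n ∈ H, ∀ n' ∈ H, n ≠ n' → w s(n, n') = false}) ≤ 2 * (1 / 2) ^ (r.choose 2) := by
    intro H hH
    rw [Finset.mem_powersetCard] at hH
    refine (measureReal_union_le _ _).trans ?_
    have h3 : ∀ b : Bool, mu.real {w : Om | ∀ n ∈ H, ∀ n' ∈ H, n ≠ n' → w s(n, n') = b} =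
        (1 / 2) ^ (r.choose 2) := by
      intro b
      rw [measureReal_def, mu_mono H b, hH.2]
      simp
    rw [h3, h3]
    linarith
  refine h1.trans ((Finset.sum_le_sum h2).trans ?_)
  rw [Finset.sum_const, Finset.card_powersetCard, nsmul_eq_mul]
  refine mul_le_mul_of_nonneg_right ?_ (by positivity)
  exact_mod_cast Nat.choose_le_pow A.card r

/-- The random nodes. -/
def tn (n k : ℕ) (w : Om) : T :=
  insert (Nat.pair n k) ((Finset.range (Nat.pair n k)).filter
    fun l => (Nat.unpair l).1 = n ∨ w s(n, (Nat.unpair l).1) = true)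

theorem lv_tn (n k : ℕ) (w : Om) : lv (tn n k w) = Nat.pair n k := by
  unfold lv tn
  rw [Finset.sup_insert]
  refine le_antisymm (sup_le le_rfl (Finset.sup_le fun l hl => ?_)) le_sup_left
  exact (Finset.mem_range.1 (Finset.mem_filter.1 hl).1).le

theorem mem_tn (n k : ℕ) (w : Om) (l : ℕ) (hl : l < Nat.pair n k) :
    l ∈ tn n k w ↔ ((Nat.unpair l).1 = n ∨ w s(n, (Nat.unpair l).1) = true) := by
  unfold tn
  rw [Finset.mem_insert, Finset.mem_filter, Finset.mem_range]
  constructor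
  · rintro (h | h)
    · omega
    · exact h.2
  · exact fun h => Or.inr ⟨hl, h⟩

theorem norm_sum_tn_le (σ : ℕ → ℕ) (A : Finset ℕ) (r : ℕ) (w : Om) (hw : w ∉ Bad A r) :
    ‖∑ n ∈ A, j (Finsupp.single (tn n (σ n) w) 1)‖ ≤ (r : ℝ) ^ 2 := by
  refine norm_sum_nodes_le (fun n => tn n (σ n) w) (fun n n' => w s(n, n') = true)
    (fun n n' h => by rw [Sym2.eq_swap]; exact h)
    (fun n n' hne => by
      simp only [lv_tn]
      intro h
      exact hne (Nat.pair_eq_pair.1 h).1)
    (fun n n' hne hlt => by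
      simp only [lv_tn] at hlt ⊢
      rw [mem_tn _ _ _ _ hlt, Nat.unpair_pair, Sym2.eq_swap]
      exact ⟨fun h => h.resolve_left hne, fun h => Or.inr h⟩) A r
    (fun H hH hHr => ?_)
  have hmem : H ∈ A.powersetCard r := Finset.mem_powersetCard.2 ⟨hH, hHr⟩
  constructor
  · intro h
    apply hw
    exact Set.mem_biUnion hmem (Or.inl h)
  · intro h
    apply hw
    exact Set.mem_biUnion hmem (Or.inr fun n hn n' hn' hne => by
      have := h n hn n' hn' hne
      simpa using this)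

end Pool.Agent.SWCG
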