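import Pool.Agent.SWCG.Basic

set_option autoImplicit false

open Filter Topology

namespace Pool.Agent.SWCG

/-- Dropping the first successor: a functional all of whose nodes agree below level `M`. -/
theorem drop (v : T →₀ ℝ) (M : ℕ) (hv : ∀ t, v t ≠ 0 → M ≤ lv t) (hpos : 0 < ‖j v‖) :
    ∃ F : T → ℝ, K F ∧ (∀ t, F t ≠ 0 → v t ≠ 0) ∧
      (∃ τ : Set ℕ, ∀ t, F t ≠ 0 → ∀ l, l < M → (l ∈ t ↔ l ∈ τ)) ∧ 1 / 4 * ‖j v‖ ≤ pr F v := by
  classical
  -- an almost norming functional
  obtain ⟨F0, hF0, h0⟩ : ∃ F0 : T → ℝ, K F0 ∧ 3 / 4 * ‖j v‖ < |pr F0 v| := by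
    by_contra hcon
    push Not at hcon
    have : ‖j v‖ ≤ 3 / 4 * ‖j v‖ :=
      norm_le_of_ev (by positivity) fun F hF => by rw [ev_j]; exact hcon F hF
    linarith
  -- restrict it to the support, with the right sign
  obtain ⟨F, hKF, hFv, hF⟩ : ∃ F : T → ℝ, K F ∧ (∀ t, F t ≠ 0 → v t ≠ 0) ∧
      3 / 4 * ‖j v‖ < pr F v := by
    rcases le_or_gt 0 (pr F0 v) with hs | hs
    · refine ⟨(v.support : Set T).indicator F0, hF0.indicator _, fun t ht => ?_, ?_⟩
      · have := (Set.indicator_apply_ne_zero.1 ht).1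
        exact Finsupp.mem_support_iff.1 (by exact_mod_cast this)
      · have e1 : pr ((v.support : Set T).indicator F0) v = pr F0 v := by
          rw [pr_apply, pr_apply]
          refine Finset.sum_congr rfl fun t ht => ?_
          rw [Set.indicator_of_mem (by exact_mod_cast ht)]
        rw [e1]
        rwa [abs_of_nonneg hs] at h0
    · refine ⟨(v.support : Set T).indicator (fun t => - F0 t),
        (hF0.solid (G := fun t => - F0 t) (fun t => by rw [abs_neg])).indicator _,
        fun t ht => ?_, ?_⟩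
      · have := (Set.indicator_apply_ne_zero.1 ht).1
        exact Finsupp.mem_support_iff.1 (by exact_mod_cast this)
      · have e1 : pr ((v.support : Set T).indicator (fun t => - F0 t)) v = - pr F0 v := by
          rw [pr_apply, pr_apply, ← Finset.sum_neg_distrib]
          refine Finset.sum_congr rfl fun t ht => ?_
          rw [Set.indicator_of_mem (by exact_mod_cast ht)]
          ring
        rw [e1]
        rwa [abs_of_neg hs] at h0
  have hkey := hKF
  cases hkey with
  | single t _ h0 h1 =>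
    refine ⟨F, hKF, hFv, ⟨{l | l ∈ t}, fun s hs l _ => ?_⟩, by linarith⟩
    have : s = t := by
      by_contra hne
      exact hs (h0 s hne)
    rw [this]
    rfl
  | node φ hφ τ e hR _ hF' =>
    -- the first visible successor
    have hex : ∃ i, ∃ t, F t ≠ 0 ∧ φ i t ≠ 0 := by
      by_contra hcon
      push Not at hcon
      have hz : ∀ t, F t = 0 := by
        intro t
        by_contra ht
        obtain ⟨i, hi⟩ := hF' t ht
        rw [hcon i t ht, abs_zero, mul_zero] at hi
        exact ht (abs_eq_zero.1 (le_antisymm hi (abs_nonneg _)))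
      have : pr F v = 0 := by
        rw [pr_apply]
        exact Finset.sum_eq_zero fun t _ => by rw [hz t, mul_zero]
      linarith
    set i0 := Nat.find hex with hi0
    obtain ⟨s0, hs0, hs0'⟩ := Nat.find_spec hex
    rw [← hi0] at hs0'
    set A : Set T := {t | φ i0 t ≠ 0} with hA
    have hdisj : ∀ i t, φ i t ≠ 0 → φ i0 t ≠ 0 → i = i0 := by
      intro i t h1 h2
      rcases lt_trichotomy i i0 with h | h | h
      · exact absurd (hR i i0 h t t h1 h2).1 (lt_irrefl _)
      · exact h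
      · exact absurd (hR i0 i h t t h2 h1).1 (lt_irrefl _)
    have hsum : pr F v = pr (Aᶜ.indicator F) v + pr (A.indicator F) v := by
      rw [pr_apply, pr_apply, pr_apply, ← Finset.sum_add_distrib]
      refine Finset.sum_congr rfl fun t _ => ?_
      rw [← mul_add]
      congr 1
      by_cases ht : t ∈ A
      · rw [Set.indicator_of_notMem (by simpa using ht), Set.indicator_of_mem ht, zero_add]
      · rw [Set.indicator_of_mem (by simpa using ht), Set.indicator_of_notMem ht, add_zero]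
    have hhalf : K (fun t => 2 * (A.indicator F) t) := by
      refine (hφ i0).solid fun t => ?_
      by_cases ht : t ∈ A
      · rw [Set.indicator_of_mem ht]
        by_cases hFt : F t = 0
        · rw [hFt, mul_zero, abs_zero]; exact abs_nonneg _
        · obtain ⟨i, hi⟩ := hF' t hFt
          have hne : φ i t ≠ 0 := by
            intro h0
            rw [h0, abs_zero, mul_zero] at hi
            exact hFt (abs_eq_zero.1 (le_antisymm hi (abs_nonneg _)))
          rw [hdisj i t hne ht] at hi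
          rw [abs_mul, abs_of_pos (by norm_num : (0:ℝ) < 2)]
          linarith
      · rw [Set.indicator_of_notMem ht, mul_zero, abs_zero]; exact abs_nonneg _
    have hb : pr (A.indicator F) v ≤ 1 / 2 * ‖j v‖ := by
      have h1 := abs_pr_le_norm hhalf v
      have h2 : pr (fun t => 2 * (A.indicator F) t) v = 2 * pr (A.indicator F) v := by
        rw [pr_apply, pr_apply, Finset.mul_sum]
        exact Finset.sum_congr rfl fun t _ => by ring
      rw [h2] at h1
      have := (le_abs_self _).trans h1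
      linarith
    refine ⟨Aᶜ.indicator F, hKF.indicator _, fun t ht => ?_, ⟨τ, fun t ht l hl => ?_⟩, by linarith⟩
    · exact hFv t (Set.indicator_apply_ne_zero.1 ht).2
    · obtain ⟨htA, htF⟩ := Set.indicator_apply_ne_zero.1 ht
      have htF : F t ≠ 0 := htF
      obtain ⟨i, hi⟩ := hF' t htF
      have hne : φ i t ≠ 0 := by
        intro h0
        rw [h0, abs_zero, mul_zero] at hi
        exact htF (abs_eq_zero.1 (le_antisymm hi (abs_nonneg _)))
      have hle : i0 ≤ i := Nat.find_min' hex ⟨t, htF, hne⟩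
      have hlt : i0 < i := by
        refine lt_of_le_of_ne hle fun h => ?_
        rw [← h] at hne
        exact htA hne
      have := (hR i0 i hlt s0 t hs0' hne).2.1 l (lt_of_lt_of_le hl (hv s0 (hFv s0 hs0)))
      exact this

/-- Removing the low levels of the members of a coordinatewise null sequence. -/
theorem truncate (d : ℕ → X) (hco : ∀ t, Tendsto (fun n => co t (d n)) atTop (𝓝 0))
    {η : ℝ} (hη : 0 < η) (M : ℕ) :
    ∀ᶠ n in atTop, ∃ b : T →₀ ℝ, ‖d n - j b‖ ≤ η ∧ ∀ t, b t ≠ 0 → M ≤ lv t := by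
  classical
  set S : Finset T := (Finset.range M).powerset with hS
  have h1 : Tendsto (fun n => ∑ t ∈ S, |co t (d n)|) atTop (𝓝 0) := by
    have := tendsto_finsetSum S (fun t _ => (hco t).abs)
    simpa using this
  have h2 : ∀ᶠ n in atTop, ∑ t ∈ S, |co t (d n)| < η / 2 :=
    h1.eventually (gt_mem_nhds (by positivity))
  filter_upwards [h2] with n hn
  set N : ℝ := (S.card : ℝ) with hN
  have hNpos : 0 ≤ N := Nat.cast_nonneg _
  obtain ⟨v, hv⟩ := exists_approx (d n) (ε := η / (2 * (N + 1))) (by positivity)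
  refine ⟨v.filter (fun t => M ≤ lv t), ?_, fun t ht => ?_⟩
  · have e1 : v.filter (fun t => M ≤ lv t) + v.filter (fun t => ¬ M ≤ lv t) = v :=
      Finsupp.filter_add_filter_not v _
    have e2 : d n - j (v.filter (fun t => M ≤ lv t)) =
        (d n - j v) + j (v.filter (fun t => ¬ M ≤ lv t)) := by
      conv_rhs => rw [← e1]
      rw [map_add]
      simp only [Finsupp.filter_add_filter_not]
      abel
    rw [e2]
    have hsub : (v.filter (fun t => ¬ M ≤ lv t)).support ⊆ S := by
      intro t ht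
      rw [Finsupp.support_filter, Finset.mem_filter] at ht
      exact mem_low (not_le.1 ht.2)
    have h3 : ‖j (v.filter (fun t => ¬ M ≤ lv t))‖ ≤
        ∑ t ∈ S, |(v.filter (fun t => ¬ M ≤ lv t)) t| := norm_j_le _ S hsub
    have h4 : ∑ t ∈ S, |(v.filter (fun t => ¬ M ≤ lv t)) t| ≤
        ∑ t ∈ S, (|co t (d n)| + η / (2 * (N + 1))) := by
      refine Finset.sum_le_sum fun t _ => ?_
      have h5 : |(v.filter (fun t => ¬ M ≤ lv t)) t| ≤ |v t| := by
        rw [Finsupp.filter_apply]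
        split_ifs <;> simp
      have h6 : |v t| ≤ |co t (d n)| + |co t (d n - j v)| := by
        have : v t = co t (d n) - co t (d n - j v) := by
          rw [map_sub, co_j]; ring
        rw [this]
        exact abs_sub _ _
      have h7 := abs_co_le t (d n - j v)
      linarith
    rw [Finset.sum_add_distrib, Finset.sum_const, nsmul_eq_mul, ← hN] at h4
    have h8 : N * (η / (2 * (N + 1))) + η / (2 * (N + 1)) = η / 2 := by
      field_simp
    calc ‖(d n - j v) + j (v.filter (fun t => ¬ M ≤ lv t))‖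
        ≤ ‖d n - j v‖ + ‖j (v.filter (fun t => ¬ M ≤ lv t))‖ := norm_add_le _ _
      _ ≤ η := by linarith
  · by_contra hcon
    exact ht (Finsupp.filter_apply_neg _ _ hcon)

/-- A coordinatewise null sequence bounded away from zero has a subsequence on which one
functional is bounded away from zero. -/
theorem key (d : ℕ → X) (hco : ∀ t, Tendsto (fun n => co t (d n)) atTop (𝓝 0))
    {ε : ℝ} (hε : 0 < ε) (hd : ∀ n, ε ≤ ‖d n‖) :
    ∃ (g : X →L[ℝ] ℝ) (c : ℝ) (u : ℕ → ℕ), 0 < c ∧ StrictMono u ∧ ∀ i, c ≤ g (d (u i)) := by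
  classical
  set c0 : ℝ := ε / 8 with hc0
  set η : ℝ := ε / 100 with hη
  let Q : ℕ → ℕ → (T →₀ ℝ) × (T → ℝ) × Set ℕ → Prop := fun M n p =>
    ‖d n - j p.1‖ ≤ η ∧ (∀ t, p.1 t ≠ 0 → M ≤ lv t) ∧ K p.2.1 ∧
      (∀ t, p.2.1 t ≠ 0 → p.1 t ≠ 0) ∧
      (∀ t, p.2.1 t ≠ 0 → ∀ l, l < M → (l ∈ t ↔ l ∈ p.2.2)) ∧ c0 ≤ pr p.2.1 p.1
  have hQ : ∀ M, ∀ᶠ n in atTop, ∃ p, Q M n p := by
    intro M
    filter_upwards [truncate d hco (η := η) (by positivity) M] with n hn
    obtain ⟨b, hb1, hb2⟩ := hn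
    have hjb : ε * (99 / 100) ≤ ‖j b‖ := by
      have h1 := norm_sub_norm_le (d n) (j b)
      have h2 := hd n
      linarith
    obtain ⟨F, h1, h2, ⟨τ, h3⟩, h4⟩ := drop b M hb2 (lt_of_lt_of_le (by positivity) hjb)
    exact ⟨(b, F, τ), hb1, hb2, h1, h2, h3, by
      change c0 ≤ pr F b
      linarith⟩
  have hp : ∀ M n, ∃ p, (∃ p', Q M n p') → Q M n p := by
    intro M n
    by_cases h : ∃ p', Q M n p'
    · exact ⟨h.choose, fun _ => h.choose_spec⟩
    · exact ⟨(0, 0, ∅), fun h' => absurd h' h⟩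
  choose p hp using hp
  set U : Ultrafilter ℕ := hyperfilter ℕ
  have hU : (U : Filter ℕ) ≤ atTop := Nat.hyperfilter_le_atTop
  have hQ' : ∀ M, ∀ᶠ n in (U : Filter ℕ), Q M n (p M n) := fun M =>
    ((hQ M).filter_mono hU).mono fun n hn => hp M n hn
  let τM : ℕ → Set ℕ := fun M => {l | ∀ᶠ n in (U : Filter ℕ), l ∈ (p M n).2.2}
  let τ : Set ℕ := {l | ∀ᶠ M in (U : Filter ℕ), l ∈ τM M}
  have cl1 : ∀ M L, ∀ᶠ n in (U : Filter ℕ), ∀ l ∈ Finset.range L,
      (l ∈ (p M n).2.2 ↔ l ∈ τM M) := by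
    intro M L
    rw [Filter.eventually_all_finset]
    intro l _
    by_cases h : l ∈ τM M
    · have h' : ∀ᶠ n in (U : Filter ℕ), l ∈ (p M n).2.2 := h
      exact h'.mono fun n hn => ⟨fun _ => h, fun _ => hn⟩
    · have h' : ∀ᶠ n in (U : Filter ℕ), ¬ l ∈ (p M n).2.2 := Ultrafilter.eventually_not.2 h
      exact h'.mono fun n hn => ⟨fun h1 => absurd h1 hn, fun h1 => absurd h1 h⟩
  have cl2 : ∀ L, ∀ᶠ M in (U : Filter ℕ), ∀ l ∈ Finset.range L, (l ∈ τM M ↔ l ∈ τ) := by
    intro L
    rw [Filter.eventually_all_finset]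
    intro l _
    by_cases h : l ∈ τ
    · have h' : ∀ᶠ M in (U : Filter ℕ), l ∈ τM M := h
      exact h'.mono fun n hn => ⟨fun _ => h, fun _ => hn⟩
    · have h' : ∀ᶠ M in (U : Filter ℕ), ¬ l ∈ τM M := Ultrafilter.eventually_not.2 h
      exact h'.mono fun n hn => ⟨fun h1 => absurd h1 hn, fun h1 => absurd h1 h⟩
  let Fe : Prop → ℕ → ℕ → T → ℝ := fun e M n =>
    ({t | (lv t ∈ τ ↔ e)} : Set T).indicator (p M n).2.1
  have hcol : ∃ e : Prop, ∀ᶠ M in (U : Filter ℕ), ∀ᶠ n in (U : Filter ℕ),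
      c0 / 2 ≤ pr (Fe e M n) (p M n).1 := by
    by_cases h : ∀ᶠ M in (U : Filter ℕ), ∀ᶠ n in (U : Filter ℕ),
        c0 / 2 ≤ pr (Fe True M n) (p M n).1
    · exact ⟨True, h⟩
    · refine ⟨False, ?_⟩
      have h' := Ultrafilter.eventually_not.2 h
      filter_upwards [h'] with M hM
      have hM' := Ultrafilter.eventually_not.2 hM
      filter_upwards [hM', hQ' M] with n hn hq
      have hs : pr (p M n).2.1 (p M n).1 =
          pr (Fe True M n) (p M n).1 + pr (Fe False M n) (p M n).1 := by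
        rw [pr_apply, pr_apply, pr_apply, ← Finset.sum_add_distrib]
        refine Finset.sum_congr rfl fun t _ => ?_
        rw [← mul_add]
        congr 1
        by_cases ht : lv t ∈ τ
        · simp only [Fe]
          rw [Set.indicator_of_mem (by simpa using ht), Set.indicator_of_notMem (by simpa using ht),
            add_zero]
        · simp only [Fe]
          rw [Set.indicator_of_notMem (by simpa using ht), Set.indicator_of_mem (by simpa using ht),
            zero_add]
      have h6 := hq.2.2.2.2.2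
      rw [not_le] at hn
      linarith
  obtain ⟨e, he⟩ := hcol
  obtain ⟨f, hf1, hf2⟩ := exists_seq_of_forall_finset_exists
    (α := ℕ × (T →₀ ℝ) × (T → ℝ))
    (fun x => ‖d x.1 - j x.2.1‖ ≤ η ∧ K x.2.2 ∧ (∀ t, x.2.2 t ≠ 0 → x.2.1 t ≠ 0) ∧
      c0 / 2 ≤ pr x.2.2 x.2.1 ∧ ∀ t, x.2.2 t ≠ 0 → (lv t ∈ τ ↔ e))
    (fun x y => x.1 < y.1 ∧ (∀ s t, x.2.1 s ≠ 0 → y.2.1 t ≠ 0 → lv s < lv t) ∧
      ∀ s t, x.2.2 s ≠ 0 → y.2.2 t ≠ 0 → ∀ l, l ≤ lv s → (l ∈ t ↔ l ∈ τ))
    (by
      intro S hS
      set L : ℕ := S.sup (fun x => x.2.1.support.sup (fun s => lv s + 1)) with hL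
      have hLs : ∀ x ∈ S, ∀ s, x.2.1 s ≠ 0 → lv s < L := by
        intro x hx s hs
        have h1 : x.2.1.support.sup (fun s => lv s + 1) ≤ L :=
          Finset.le_sup (f := fun x : ℕ × (T →₀ ℝ) × (T → ℝ) =>
            x.2.1.support.sup (fun s => lv s + 1)) hx
        have h2 : lv s + 1 ≤ x.2.1.support.sup (fun s => lv s + 1) :=
          Finset.le_sup (f := fun s => lv s + 1) (Finsupp.mem_support_iff.2 hs)
        omega
      obtain ⟨M, hM1, hM2, hM3⟩ := (he.and ((cl2 L).and
        ((eventually_ge_atTop L).filter_mono hU))).exists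
      obtain ⟨n, hn1, hn2, hn3, hn4⟩ := (hM1.and ((cl1 M L).and ((hQ' M).and
        ((eventually_gt_atTop (S.sup fun x => x.1)).filter_mono hU)))).exists
      obtain ⟨q1, q2, q3, q4, q5, q6⟩ := hn3
      refine ⟨(n, (p M n).1, Fe e M n), ⟨q1, q3.indicator _, fun t ht => ?_, hn1, fun t ht => ?_⟩,
        fun x hx => ⟨?_, fun s t hs ht => ?_, fun s t hs ht l hl => ?_⟩⟩
      · exact q4 t (Set.indicator_apply_ne_zero.1 ht).2
      · exact (Set.indicator_apply_ne_zero.1 ht).1
      · exact lt_of_le_of_lt (Finset.le_sup (f := fun x : ℕ × (T →₀ ℝ) × (T → ℝ) => x.1) hx) hn4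
      · exact lt_of_lt_of_le (hLs x hx s hs) (hM3.trans (q2 t ht))
      · have hlL : l < L := lt_of_le_of_lt hl (hLs x hx s ((hS x hx).2.2.1 s hs))
        have h1 := q5 t (Set.indicator_apply_ne_zero.1 ht).2 l (lt_of_lt_of_le hlL hM3)
        exact (h1.trans (hn2 l (Finset.mem_range.2 hlL))).trans (hM2 l (Finset.mem_range.2 hlL)))
  let F : T → ℝ := fun t => if h : ∃ i, (f i).2.2 t ≠ 0 then 1 / 2 * (f h.choose).2.2 t else 0
  have hKF : K F := by
    refine K.node (fun i => (f i).2.2) (fun i => (hf1 i).2.1) τ e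
      (fun i i' hij s t hs ht => ⟨?_, fun l hl => ?_, ?_⟩) F (fun t ht => ?_)
    · exact (hf2 i i' hij).2.1 s t ((hf1 i).2.2.1 s hs) ((hf1 i').2.2.1 t ht)
    · exact (hf2 i i' hij).2.2 s t hs ht l hl.le
    · exact ((hf2 i i' hij).2.2 s t hs ht _ le_rfl).trans ((hf1 i).2.2.2.2 s hs)
    · by_cases h : ∃ i, (f i).2.2 t ≠ 0
      · refine ⟨h.choose, ?_⟩
        simp only [F, dif_pos h]
        rw [abs_mul, abs_of_pos (by norm_num : (0:ℝ) < 1 / 2)]
      · exact absurd (by simp only [F, dif_neg h]) ht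
  have hval : ∀ i, pr F (f i).2.1 = 1 / 2 * pr (f i).2.2 (f i).2.1 := by
    intro i
    rw [pr_apply, pr_apply, Finset.mul_sum]
    refine Finset.sum_congr rfl fun t ht => ?_
    have hbt : (f i).2.1 t ≠ 0 := Finsupp.mem_support_iff.1 ht
    have huniq : ∀ i', (f i').2.2 t ≠ 0 → i' = i := by
      intro i' hi'
      have hbt' := (hf1 i').2.2.1 t hi'
      rcases lt_trichotomy i' i with h | h | h
      · exact absurd ((hf2 i' i h).2.1 t t hbt' hbt) (lt_irrefl _)
      · exact h
      · exact absurd ((hf2 i i' h).2.1 t t hbt hbt') (lt_irrefl _)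
    by_cases h : ∃ i, (f i).2.2 t ≠ 0
    · have hc := huniq _ h.choose_spec
      simp only [F, dif_pos h]
      rw [hc]
      ring
    · simp only [F, dif_neg h]
      push Not at h
      rw [h i]
      ring
  refine ⟨ev F hKF, ε / 100, fun i => (f i).1, by positivity,
    strictMono_nat_of_lt_succ fun i => (hf2 i (i + 1) (Nat.lt_succ_self i)).1, fun i => ?_⟩
  have h1 : ev F hKF (d (f i).1) = ev F hKF (j (f i).2.1) + ev F hKF (d (f i).1 - j (f i).2.1) := by
    rw [map_sub]; ring
  have h2 := (abs_ev_le F hKF (d (f i).1 - j (f i).2.1)).trans (hf1 i).1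
  have h3 := (hf1 i).2.2.2.1
  rw [ev_j, hval i] at h1
  have h4 := (abs_le.1 h2).1
  linarith

end Pool.Agent.SWCG
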